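import Pool.Agent.helper46.HK.P2
import Pool.Agent.helper16.HK.P3
import Pool.Agent.helper33.HK.P5
import Pool.Agent.helper93.HK.P6A
import Pool.Agent.helper33.HK.P6B
import Pool.Agent.helper33.HK.P6C
import Pool.Agent.helper83.HK.P6D

/-!
Module hk:P8C of the project HK (MP_90cd86_gt): sign changes and conjugation are smooth and
preserve the orientation.
-/

set_option autoImplicit false

open scoped Manifold ContDiff Topology

noncomputable section

namespace Pool.Agent.helper62.K3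

/-- real signs -/
def P8C_rs (v : Fin 6 → ZMod 2) (i : Fin 6) : ℝ := if i = 0 then 1 else (-1) ^ (v i).val

theorem P8C_sg (v : Fin 6 → ZMod 2) (i : Fin 6) : sg v i = (P8C_rs v i : ℂ) := by
  unfold sg P8C_rs
  split_ifs
  · simp
  · push_cast
    rfl

theorem P8C_rs_sq (v : Fin 6 → ZMod 2) (i : Fin 6) : P8C_rs v i * P8C_rs v i = 1 := by
  unfold P8C_rs
  split_ifs
  · norm_num
  · rw [← mul_pow]
    norm_num

theorem P8C_sg_sq (v : Fin 6 → ZMod 2) (i : Fin 6) : sg v i * sg v i = 1 := by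
  rw [P8C_sg, ← Complex.ofReal_mul, P8C_rs_sq, Complex.ofReal_one]

/-- identity or conjugation as a real linear map -/
def P8C_c (v : Fin 6 → ZMod 2) : ℂ →L[ℝ] ℂ :=
  if v 0 = 0 then ContinuousLinearMap.id ℝ ℂ else (Complex.conjCLE : ℂ →L[ℝ] ℂ)

theorem P8C_c_apply (v : Fin 6 → ZMod 2) (z : ℂ) : P8C_c v z = cj v z := by
  unfold P8C_c cj
  split_ifs
  · rfl
  · rfl

theorem P8C_cj_div (v : Fin 6 → ZMod 2) (x y : ℂ) : cj v (x / y) = cj v x / cj v y := by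
  unfold cj
  split_ifs
  · rfl
  · rw [map_div₀]

theorem P8C_cj_eq_zero (v : Fin 6 → ZMod 2) (x : ℂ) : cj v x = 0 ↔ x = 0 := by
  unfold cj
  split_ifs
  · rfl
  · exact map_eq_zero _

theorem P8C_c_det (v : Fin 6 → ZMod 2) :
    LinearMap.det ((P8C_c v : ℂ →L[ℝ] ℂ) : ℂ →ₗ[ℝ] ℂ) ≠ 0 := by
  unfold P8C_c
  split_ifs
  · have h : ((ContinuousLinearMap.id ℝ ℂ : ℂ →L[ℝ] ℂ) : ℂ →ₗ[ℝ] ℂ) = LinearMap.id := rfl
    rw [h, LinearMap.det_id]
    norm_num
  · have h := Complex.det_conjLIE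
    have h2 : (((Complex.conjCLE : ℂ ≃L[ℝ] ℂ) : ℂ →L[ℝ] ℂ) : ℂ →ₗ[ℝ] ℂ) =
      (Complex.conjLIE.toLinearEquiv : ℂ →ₗ[ℝ] ℂ) := rfl
    rw [h2, h]
    norm_num

/-- the action on the coordinates -/
def P8C_L (v : Fin 6 → ZMod 2) (s t : ℝ) : (ℂ × ℂ) →L[ℝ] (ℂ × ℂ) :=
  (s • P8C_c v).prodMap (t • P8C_c v)

theorem P8C_L_det (v : Fin 6 → ZMod 2) (s t : ℝ) (hs : s * s = 1) (ht : t * t = 1) :
    0 < (P8C_L v s t).det := by
  have h1 : (P8C_L v s t).det = LinearMap.det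
      (((s • ((P8C_c v : ℂ →L[ℝ] ℂ) : ℂ →ₗ[ℝ] ℂ)).prodMap
        (t • ((P8C_c v : ℂ →L[ℝ] ℂ) : ℂ →ₗ[ℝ] ℂ)) : (ℂ × ℂ) →ₗ[ℝ] (ℂ × ℂ))) := rfl
  have h2 := P8C_c_det v
  rw [h1, LinearMap.det_prodMap, LinearMap.det_smul, LinearMap.det_smul,
    Complex.finrank_real_complex, pow_two, pow_two, hs, ht, one_mul]
  exact mul_self_pos.2 h2

theorem P8C_zc (v : Fin 6 → ZMod 2) (f : X0 → X0)
    (hf : ∀ (T : X0) (i j : Fin 6), (f T).1 i j = sg v i * sg v j * cj v (T.1 i j))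
    (a i : Fin 6) (T : X0) :
    zc a i (f T) = ((P8C_rs v i * P8C_rs v a : ℝ) • P8C_c v) (zc a i T) := by
  rw [smul_apply, P8C_c_apply]
  unfold zc
  rw [hf, hf, P8C_cj_div, P8C_sg_sq, one_mul, P8C_sg, P8C_sg, Complex.real_smul]
  push_cast
  ring

theorem P8C_crd (v : Fin 6 → ZMod 2) (f : X0 → X0)
    (hf : ∀ (T : X0) (i j : Fin 6), (f T).1 i j = sg v i * sg v j * cj v (T.1 i j))
    (a b c : Fin 6) (T : X0) :
    crd a b c (f T) =
      P8C_L v (P8C_rs v b * P8C_rs v a) (P8C_rs v c * P8C_rs v a) (crd a b c T) := by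
  unfold crd P8C_L
  rw [P8C_zc v f hf, P8C_zc v f hf]
  rfl

theorem P8C_cont (v : Fin 6 → ZMod 2) (f : X0 → X0)
    (hf : ∀ (T : X0) (i j : Fin 6), (f T).1 i j = sg v i * sg v j * cj v (T.1 i j)) :
    Continuous f := by
  have h2 : Continuous (fun T : X0 => (f T).1) := by
    refine continuous_pi fun i => continuous_pi fun j => ?_
    have h1 : (fun T : X0 => (f T).1 i j) =
        fun T : X0 => sg v i * sg v j * P8C_c v (T.1 i j) := by
      funext T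
      rw [P8C_c_apply, ← hf]
    have h3 : Continuous (fun T : X0 => sg v i * sg v j * P8C_c v (T.1 i j)) :=
      continuous_const.mul ((P8C_c v).continuous.comp (P2_cont i j))
    rw [← h1] at h3
    exact h3
  exact continuous_induced_rng.2 h2

theorem P8C_och (v : Fin 6 → ZMod 2) (f : X0 → X0)
    (hf : ∀ (T : X0) (i j : Fin 6), (f T).1 i j = sg v i * sg v j * cj v (T.1 i j))
    (a b c : Fin 6) (T : X0) (hT : f T ∈ Och a b c) : T ∈ Och a b c := by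
  have h : ∀ j, (f T).1 j j ≠ 0 → T.1 j j ≠ 0 := by
    intro j hj h0
    apply hj
    rw [hf, (P8C_cj_eq_zero v _).2 h0, mul_zero]
  exact ⟨h a hT.1, fun j h1 h2 h3 => h j (hT.2 j h1 h2 h3)⟩

theorem P8C_wX (a b c : Fin 6) (hab : a ≠ b) (hac : a ≠ c) (hbc : b ≠ c) (T : X0)
    (hT : T ∈ Och a b c) : wX a b c T ≠ 0 := by
  unfold wX
  refine div_ne_zero (P6A_ne a b c hab hac hbc) ?_
  rw [Finset.prod_ne_zero_iff]
  intro j hj
  simp only [Finset.mem_sdiff, Finset.mem_univ, true_and, Finset.mem_insert,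
    Finset.mem_singleton, not_or] at hj
  have h1 := (P2_rel a T hT.1).2.2.2.1 j
  exact fun h0 => hT.2 j hj.1 hj.2.1 hj.2.2 (h1.2 h0)

/-- hk:P8C it is smooth and preserves the orientation -/
theorem P8C (v : Fin 6 → ZMod 2) (f : X0 → X0)
    (hf : ∀ (T : X0) (i j : Fin 6), (f T).1 i j = sg v i * sg v j * cj v (T.1 i j))
    (e e' : OpenPartialHomeomorph X0 (ℂ × ℂ)) (he : IsCh e) (he' : IsCh e') :
    ContDiffOn ℝ ∞ (fun u => e' (f (e.symm u))) (e.target ∩ {u | f (e.symm u) ∈ e'.source}) ∧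
    ∀ u ∈ e.target ∩ {u | f (e.symm u) ∈ e'.source},
      0 < (fderiv ℝ (fun u => e' (f (e.symm u))) u).det := by
  obtain ⟨a, b, c, hch⟩ := id he
  obtain ⟨a', b', c', hch'⟩ := id he'
  have hSo : IsOpen (e.target ∩ {u | f (e.symm u) ∈ e'.source}) :=
    e.symm.isOpen_inter_preimage (e'.open_source.preimage (P8C_cont v f hf))
  have key : ∀ u ∈ e.target ∩ {u | f (e.symm u) ∈ e'.source},
      ∃ e'' : OpenPartialHomeomorph X0 (ℂ × ℂ), IsChAt a' b' c' e'' ∧ e.symm u ∈ e''.source ∧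
      (fun u => e' (f (e.symm u))) =ᶠ[𝓝 u] fun u =>
        P8C_L v (P8C_rs v b' * P8C_rs v a') (P8C_rs v c' * P8C_rs v a') (e'' (e.symm u)) := by
    intro u hu
    have hT : e.symm u ∈ Och a' b' c' := P8C_och v f hf a' b' c' _ (hch'.2.2.2.1 hu.2)
    obtain ⟨e'', hmem, hch''⟩ := P3_of P1 P2_zc P2_rel P2_mk a' b' c' hch'.1 hch'.2.1 hch'.2.2.1
      (e.symm u) hT
    refine ⟨e'', hch'', hmem, ?_⟩
    filter_upwards [hSo.mem_nhds hu, (P5_open e e'').mem_nhds ⟨hu.1, hmem⟩] with w hw hw'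
    rw [hch'.2.2.2.2 _ hw.2, hch''.2.2.2.2 _ hw'.2, P8C_crd v f hf]
  have hs : ∀ i j, (P8C_rs v i * P8C_rs v j) * (P8C_rs v i * P8C_rs v j) = 1 := by
    intro i j
    calc (P8C_rs v i * P8C_rs v j) * (P8C_rs v i * P8C_rs v j)
        = (P8C_rs v i * P8C_rs v i) * (P8C_rs v j * P8C_rs v j) := by ring
      _ = 1 := by rw [P8C_rs_sq, P8C_rs_sq, one_mul]
  constructor
  · intro u hu
    obtain ⟨e'', hch'', hmem, hev⟩ := key u hu
    have hA := P5 e e'' he ⟨a', b', c', hch''⟩ u ⟨hu.1, hmem⟩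
    have h1 : ContDiffAt ℝ ∞ (fun u => e'' (e.symm u)) u :=
      (hA.contDiffAt (n := ∞)).restrict_scalars ℝ
    have h2 : ContDiffAt ℝ ∞ (fun u => P8C_L v (P8C_rs v b' * P8C_rs v a')
        (P8C_rs v c' * P8C_rs v a') (e'' (e.symm u))) u :=
      (ContinuousLinearMap.contDiff _).contDiffAt.comp u h1
    exact (h2.congr_of_eventuallyEq hev).contDiffWithinAt
  · intro u hu
    obtain ⟨e'', hch'', hmem, hev⟩ := key u hu
    have hA := P5 e e'' he ⟨a', b', c', hch''⟩ u ⟨hu.1, hmem⟩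
    have hd := hA.differentiableAt
    have h1 : HasFDerivAt (fun u => P8C_L v (P8C_rs v b' * P8C_rs v a')
        (P8C_rs v c' * P8C_rs v a') (e'' (e.symm u)))
        ((P8C_L v (P8C_rs v b' * P8C_rs v a') (P8C_rs v c' * P8C_rs v a')).comp
          ((fderiv ℂ (fun u => e'' (e.symm u)) u).restrictScalars ℝ)) u :=
      (ContinuousLinearMap.hasFDerivAt _).comp u (hd.hasFDerivAt.restrictScalars ℝ)
    rw [hev.fderiv_eq, h1.fderiv]
    have h2 : ((P8C_L v (P8C_rs v b' * P8C_rs v a') (P8C_rs v c' * P8C_rs v a')).comp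
          ((fderiv ℂ (fun u => e'' (e.symm u)) u).restrictScalars ℝ)).det =
        (P8C_L v (P8C_rs v b' * P8C_rs v a') (P8C_rs v c' * P8C_rs v a')).det *
          Algebra.norm ℝ (fderiv ℂ (fun u => e'' (e.symm u)) u).det := by
      have h3 : ((P8C_L v (P8C_rs v b' * P8C_rs v a') (P8C_rs v c' * P8C_rs v a')).comp
          ((fderiv ℂ (fun u => e'' (e.symm u)) u).restrictScalars ℝ)).det =
          LinearMap.det
            (((P8C_L v (P8C_rs v b' * P8C_rs v a') (P8C_rs v c' * P8C_rs v a')) :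
              (ℂ × ℂ) →ₗ[ℝ] (ℂ × ℂ)) ∘ₗ
            (((fderiv ℂ (fun u => e'' (e.symm u)) u : (ℂ × ℂ) →ₗ[ℂ] (ℂ × ℂ))).restrictScalars ℝ)) :=
        rfl
      rw [h3, LinearMap.det_comp, LinearMap.det_restrictScalars]
    rw [h2]
    refine mul_pos (P8C_L_det v _ _ (hs b' a') (hs c' a')) ?_
    rw [Algebra.norm_complex_apply]
    refine Complex.normSq_pos.2 ?_
    have hTs : e.symm u ∈ e.source := e.map_target hu.1
    have h4 := P6D_of P2_zc P2_rel P5 P6A P6B P6C a b c a' b' c' e e'' hch hch'' (e.symm u) hTs hmem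
    rw [e.right_inv hu.1] at h4
    intro h0
    rw [h0, mul_zero] at h4
    exact P8C_wX a b c hch.1 hch.2.1 hch.2.2.1 _ (hch.2.2.2.1 hTs) h4

end Pool.Agent.helper62.K3
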